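import Pool.Agent.Lib_helper53.BS.Defs

/-! Block ATO: the atom at 1. -/

set_option autoImplicit false

namespace Pool.Agent.BS

open Finset Filter MeasureTheory Topology
open scoped Classical

theorem ato_corr {m : (ℕ → ℝ) → ℝ} (hm : IsMean m) (f : ℕ → ℝ) (hf : Bdd f)
    (μ : Measure Circle)
    (hμ : ∀ t : ℕ, m (fun a => f a * f (a + t)) = ∫ z : Circle, ((z : ℂ) ^ t).re ∂μ) (s t : ℕ) :
    m (fun a => f (a + s) * f (a + t)) =
      ∫ z : Circle, ((starRingEnd ℂ) ((z : ℂ) ^ s) * (z : ℂ) ^ t).re ∂μ := by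
  have key : ∀ s u : ℕ, m (fun a => f (a + s) * f (a + (s + u))) =
      ∫ z : Circle, ((z : ℂ) ^ u).re ∂μ := by
    intro s u
    rw [← hμ u, ← hm.shift (fun a => f a * f (a + u)) (hf.mul (hf.shift u)) s]
    congr 1
    funext a
    rw [add_assoc]
  have hz : ∀ (z : Circle) (s u : ℕ), (starRingEnd ℂ) ((z : ℂ) ^ s) * (z : ℂ) ^ (s + u) =
      (z : ℂ) ^ u := by
    intro z s u
    rw [pow_add, ← mul_assoc, mul_comm ((starRingEnd ℂ) ((z : ℂ) ^ s)), Complex.mul_conj,
      Complex.normSq_eq_norm_sq, norm_pow, Circle.norm_coe]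
    simp
  rcases le_total s t with h | h
  · obtain ⟨u, rfl⟩ := Nat.exists_eq_add_of_le h
    rw [key]
    simp only [hz]
  · obtain ⟨u, rfl⟩ := Nat.exists_eq_add_of_le h
    have e1 : (fun a => f (a + (t + u)) * f (a + t)) = fun a => f (a + t) * f (a + (t + u)) := by
      funext a
      rw [mul_comm]
    rw [e1, key]
    refine integral_congr_ae (ae_of_all _ fun z => ?_)
    simp only
    rw [← Complex.conj_re ((starRingEnd ℂ) ((z : ℂ) ^ (t + u)) * (z : ℂ) ^ t), map_mul,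
      Complex.conj_conj, mul_comm, hz]

theorem ato_norm (z : ℂ) (H : ℕ) : ‖∑ s ∈ range H, z ^ s‖ ^ 2 =
    ∑ s ∈ range H, ∑ t ∈ range H, ((starRingEnd ℂ) (z ^ s) * z ^ t).re := by
  have h1 : ∀ w : ℂ, ‖w‖ ^ 2 = ((starRingEnd ℂ) w * w).re := by
    intro w
    rw [Complex.sq_norm, Complex.normSq_apply, Complex.mul_re, Complex.conj_re, Complex.conj_im]
    ring
  rw [h1, map_sum, Finset.sum_mul_sum, Complex.re_sum]
  exact Finset.sum_congr rfl fun s _ => Complex.re_sum _ _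

/-- ATO -/
theorem atom_one_pr {m : (ℕ → ℝ) → ℝ} (hm : IsMean m) (f : ℕ → ℝ) (hf : Bdd f)
    (μ : Measure Circle) (hμf : IsFiniteMeasure μ)
    (hμ : ∀ t : ℕ, m (fun a => f a * f (a + t)) = ∫ z : Circle, ((z : ℂ) ^ t).re ∂μ) :
    m f ^ 2 ≤ μ.real {1} := by
  have hcont : ∀ s t : ℕ, Continuous fun z : Circle =>
      ((starRingEnd ℂ) ((z : ℂ) ^ s) * (z : ℂ) ^ t).re := by
    intro s t
    fun_prop
  have hint : ∀ s t : ℕ, Integrable (fun z : Circle =>
      ((starRingEnd ℂ) ((z : ℂ) ^ s) * (z : ℂ) ^ t).re) μ := by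
    intro s t
    refine Integrable.mono' (integrable_const (1 : ℝ)) (hcont s t).aestronglyMeasurable
      (ae_of_all _ fun z => ?_)
    rw [Real.norm_eq_abs]
    refine (Complex.abs_re_le_norm _).trans ?_
    rw [norm_mul, RCLike.norm_conj, norm_pow, norm_pow, Circle.norm_coe]
    simp
  have hH : ∀ H : ℕ, m f ^ 2 ≤ ∫ z : Circle,
      ‖((H + 1 : ℕ) : ℂ)⁻¹ * ∑ s ∈ range (H + 1), (z : ℂ) ^ s‖ ^ 2 ∂μ := by
    intro H
    have h0 : (0 : ℝ) < ((H + 1 : ℕ) : ℝ) := by exact_mod_cast Nat.succ_pos H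
    have e1 : ∀ z : Circle, ‖((H + 1 : ℕ) : ℂ)⁻¹ * ∑ s ∈ range (H + 1), (z : ℂ) ^ s‖ ^ 2 =
        (((H + 1 : ℕ) : ℝ) ^ 2)⁻¹ * ∑ s ∈ range (H + 1), ∑ t ∈ range (H + 1),
          ((starRingEnd ℂ) ((z : ℂ) ^ s) * (z : ℂ) ^ t).re := by
      intro z
      rw [norm_mul, mul_pow, ato_norm, norm_inv, Complex.norm_natCast, inv_pow]
    simp only [e1]
    rw [integral_const_mul, integral_finsetSum _ fun s _ => integrable_finsetSum _ fun t _ =>
      hint s t]
    have e2 : ∀ s ∈ range (H + 1), ∫ z : Circle, ∑ t ∈ range (H + 1),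
        ((starRingEnd ℂ) ((z : ℂ) ^ s) * (z : ℂ) ^ t).re ∂μ =
        ∑ t ∈ range (H + 1), m (fun a => f (a + s) * f (a + t)) := by
      intro s _
      rw [integral_finsetSum _ fun t _ => hint s t]
      exact Finset.sum_congr rfl fun t _ => (ato_corr hm f hf μ hμ s t).symm
    rw [Finset.sum_congr rfl e2]
    have e3 : ∑ s ∈ range (H + 1), ∑ t ∈ range (H + 1), m (fun a => f (a + s) * f (a + t)) =
        m (fun a => (∑ s ∈ range (H + 1), f (a + s)) ^ 2) := by
      have e4 : (fun a => (∑ s ∈ range (H + 1), f (a + s)) ^ 2) =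
          fun a => ∑ s ∈ range (H + 1), ∑ t ∈ range (H + 1), f (a + s) * f (a + t) := by
        funext a
        rw [sq, Finset.sum_mul_sum]
      rw [e4, hm.sum _ fun s _ => Bdd.sum _ fun t _ => (hf.shift s).mul (hf.shift t)]
      exact Finset.sum_congr rfl fun s _ =>
        (hm.sum _ fun t _ => (hf.shift s).mul (hf.shift t)).symm
    have e5 : m (fun a => ∑ s ∈ range (H + 1), f (a + s)) = ((H + 1 : ℕ) : ℝ) * m f := by
      rw [hm.sum _ fun s _ => hf.shift s]
      simp only [hm.shift f hf]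
      rw [Finset.sum_const, Finset.card_range, nsmul_eq_mul]
    have e6 := hm.sq_le (f := fun a => ∑ s ∈ range (H + 1), f (a + s))
      (Bdd.sum _ fun s _ => hf.shift s)
    rw [e5, mul_pow] at e6
    rw [e3, inv_mul_eq_div, le_div_iff₀ (by positivity), mul_comm]
    exact e6
  have hlim : Tendsto (fun H : ℕ => ∫ z : Circle,
      ‖((H + 1 : ℕ) : ℂ)⁻¹ * ∑ s ∈ range (H + 1), (z : ℂ) ^ s‖ ^ 2 ∂μ) atTop
      (𝓝 (∫ z : Circle, ({1} : Set Circle).indicator (fun _ => (1 : ℝ)) z ∂μ)) := by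
    refine tendsto_integral_of_dominated_convergence (fun _ => (1 : ℝ)) (fun H => ?_)
      (integrable_const _) (fun H => ae_of_all _ fun z => ?_) (ae_of_all _ fun z => ?_)
    · have : Continuous fun z : Circle =>
          ‖((H + 1 : ℕ) : ℂ)⁻¹ * ∑ s ∈ range (H + 1), (z : ℂ) ^ s‖ ^ 2 := by fun_prop
      exact this.aestronglyMeasurable
    · have h0 : (0 : ℝ) < ((H + 1 : ℕ) : ℝ) := by exact_mod_cast Nat.succ_pos H
      rw [Real.norm_eq_abs, abs_of_nonneg (by positivity)]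
      have h1 : ‖∑ s ∈ range (H + 1), (z : ℂ) ^ s‖ ≤ ((H + 1 : ℕ) : ℝ) := by
        refine (norm_sum_le _ _).trans ?_
        simp
      have h2 : ‖((H + 1 : ℕ) : ℂ)⁻¹ * ∑ s ∈ range (H + 1), (z : ℂ) ^ s‖ ≤ 1 := by
        rw [norm_mul, norm_inv, Complex.norm_natCast, inv_mul_le_iff₀ h0, mul_one]
        exact h1
      exact pow_le_one₀ (norm_nonneg _) h2
    · by_cases hz : z = 1
      · subst hz
        have e : ∀ H : ℕ, ‖((H + 1 : ℕ) : ℂ)⁻¹ * ∑ s ∈ range (H + 1), ((1 : Circle) : ℂ) ^ s‖ ^ 2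
            = 1 := by
          intro H
          have h0 : ((H + 1 : ℕ) : ℂ) ≠ 0 := Nat.cast_ne_zero.mpr (Nat.succ_ne_zero H)
          rw [Circle.coe_one]
          simp only [one_pow, Finset.sum_const, Finset.card_range, nsmul_eq_mul, mul_one]
          rw [inv_mul_cancel₀ h0]
          simp
        simp only [e]
        simp
      · have hz' : (z : ℂ) ≠ 1 := fun h => hz (Circle.ext (by rw [h, Circle.coe_one]))
        have hz1 : (z : ℂ) - 1 ≠ 0 := sub_ne_zero.mpr hz'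
        rw [Set.indicator_of_notMem (by simpa using hz)]
        have h1 : ∀ H : ℕ, ‖((H + 1 : ℕ) : ℂ)⁻¹ * ∑ s ∈ range (H + 1), (z : ℂ) ^ s‖ ≤
            (2 / ‖(z : ℂ) - 1‖) * ((H : ℝ) + 1)⁻¹ := by
          intro H
          rw [geom_sum_eq hz', norm_mul, norm_inv, Complex.norm_natCast, norm_div, Nat.cast_add,
            Nat.cast_one, mul_comm]
          refine mul_le_mul_of_nonneg_right ?_ (by positivity)
          refine div_le_div_of_nonneg_right ?_ (norm_nonneg _)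
          refine (norm_sub_le _ _).trans ?_
          rw [norm_pow, Circle.norm_coe, one_pow, norm_one]
          norm_num
        have h2 : Tendsto (fun H : ℕ => (2 / ‖(z : ℂ) - 1‖) * ((H : ℝ) + 1)⁻¹) atTop (𝓝 0) := by
          have h3 : Tendsto (fun H : ℕ => ((H : ℝ) + 1)⁻¹) atTop (𝓝 0) := by
            simpa [one_div] using tendsto_one_div_add_atTop_nhds_zero_nat (𝕜 := ℝ)
          simpa using h3.const_mul (2 / ‖(z : ℂ) - 1‖)
        have h4 := squeeze_zero (fun H => norm_nonneg _) h1 h2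
        simpa using h4.pow 2
  have h1 : ∫ z : Circle, ({1} : Set Circle).indicator (fun _ => (1 : ℝ)) z ∂μ = μ.real {1} := by
    rw [integral_indicator (measurableSet_singleton 1)]
    simp [Measure.real]
  rw [h1] at hlim
  exact ge_of_tendsto' hlim hH

end Pool.Agent.BS
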